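import Pool.Agent.L7h71.FP.Seg

set_option autoImplicit false

/-!
Part MOI of the project on theories in disjoint languages.
-/

namespace Pool.Agent.L7h26.DU

open Set Filter MeasureTheory
open Pool.Agent.L7h71.FP

/-- few subsets are finite or cofinite -/
lemma countable_fc (i : Bool) : {x : ℕ → Bool | {n | x n = i}.Finite}.Countable := by
  have h1 : {t : Set ℕ | t.Finite ∧ t ⊆ univ}.Countable :=
    Set.countable_ofPred_finite_subset (Set.to_countable _)
  refine Set.MapsTo.countable_of_injOn (f := fun x : ℕ → Bool => {n | x n = i}) (s := _)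
    (t := {t : Set ℕ | t.Finite ∧ t ⊆ univ}) (fun x hx => ⟨hx, subset_univ _⟩) ?_ h1
  intro x _ y _ hxy
  funext n
  have := Set.ext_iff.1 hxy n
  simp only [mem_ofPred_eq] at this
  revert this
  cases x n <;> cases y n <;> cases i <;> simp

/-- diagonalisation -/
def dg (e : ℕ → ℕ → Bool) (b : ℕ → Bool) (m : ℕ) : Bool :=
  if m % 2 = 0 then b (m / 2) else !(e (m / 2) m)

lemma dg_cont (e : ℕ → ℕ → Bool) : Continuous (dg e) := by
  refine continuous_pi fun m => ?_
  unfold dg
  by_cases h : m % 2 = 0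
  · simp only [h, if_true]
    exact continuous_apply _
  · simp only [h, if_false]
    exact continuous_const

lemma dg_inj (e : ℕ → ℕ → Bool) {b c : ℕ → Bool} (h : dg e b = dg e c) : b = c := by
  funext n
  have := congrFun h (2 * n)
  simpa [dg] using this

lemma dg_ne (e : ℕ → ℕ → Bool) (b : ℕ → Bool) (n : ℕ) : dg e b ≠ e n := by
  intro h
  have := congrFun h (2 * n + 1)
  have h1 : (2 * n + 1) % 2 = 1 := by omega
  have h2 : (2 * n + 1) / 2 = n := by omega
  simp [dg, h1, h2] at this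

/-- Part MOI. -/
theorem s_moi : S_IND → S_MOI := by
  intro hIND G K hG hK hnf hmoi
  classical
  obtain ⟨F, hF, A, hAi, hAc, hinv⟩ := hmoi
  unfold Few at hnf
  rw [not_not] at hnf
  obtain ⟨B0, hB0, hc0⟩ := hnf
  obtain ⟨h0, h1, h2⟩ := Pool.Agent.H566W.perfect_independent
    (fun c d => ∃ g ∈ G, ∀ n, B0 d (g n) = B0 c n) (analytic_grp hG hB0) hc0
  set B1 : (ℕ → Bool) → ℕ → Bool := fun b => B0 (h0 b) with hB1
  have hB1c : Continuous B1 := hB0.comp h1
  have hB1i : ∀ c d, (∃ g ∈ G, ∀ n, B1 d (g n) = B1 c n) → c = d := by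
    intro c d hi
    by_contra hne
    exact h2 c d hne hi
  have hinj : ∀ c d, B1 c = B1 d → c = d := fun c d h =>
    hB1i c d ⟨1, G.one_mem, fun n => by rw [h]; rfl⟩
  have hcount : ({c | ∃ i : Bool, {n | B1 c n = i}.Finite} : Set (ℕ → Bool)).Countable := by
    have : ({c | ∃ i : Bool, {n | B1 c n = i}.Finite} : Set (ℕ → Bool)) =
        ⋃ i : Bool, {c | {n | B1 c n = i}.Finite} := by
      ext c
      simp
    rw [this]
    refine Set.countable_iUnion fun i => ?_
    exact Set.MapsTo.countable_of_injOn (f := B1) (fun c hc => hc)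
      (fun c _ d _ h => hinj c d h) (countable_fc i)
  obtain ⟨e, he⟩ := Set.countable_iff_exists_subset_range.1 hcount
  set B : (ℕ → Bool) → ℕ → Bool := fun b => B1 (dg e b) with hB
  have hBc : Continuous B := hB1c.comp (dg_cont e)
  have hBi : ∀ c d, (∃ g ∈ G, ∀ n, B d (g n) = B c n) → c = d := fun c d h =>
    dg_inj e (hB1i _ _ h)
  have hBinf : ∀ c, Seg.Inf (B c) := by
    intro c i hfin
    obtain ⟨n, hn⟩ := he (show dg e c ∈ {c | ∃ i : Bool, {n | B1 c n = i}.Finite} from ⟨i, hfin⟩)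
    exact dg_ne e c n hn.symm
  set p : ℕ → Bool := fun n => decide (n ∈ A) with hp
  have hpinf : Seg.Inf p := by
    intro i
    cases i
    · have : {x | p x = false} = Aᶜ := by
        ext x
        simp [hp]
      rw [this]
      exact hAc
    · have : {x | p x = true} = A := by
        ext x
        simp [hp]
      rw [this]
      exact hAi
  have hpst : ∀ k ∈ st K F, ∀ n, p (k n) = p n := by
    intro k hk n
    simp only [hp]
    exact decide_eq_decide.2 (hinv k hk n)
  have hcf : CFam fun c => Seg.sg hpinf (hBinf c) := Seg.sg_cfam hpinf hBinf hBc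
  refine hIND G K hG hK _ hcf fun b => ?_
  set Y : Set (ℕ → Bool) := {d | ∃ g ∈ G, ∃ k ∈ K,
    Seg.sg hpinf (hBinf d) = g * Seg.sg hpinf (hBinf b) * k} with hY
  have hch : ∀ d : Y, ∃ gk : Equiv.Perm ℕ × Equiv.Perm ℕ, gk.1 ∈ G ∧ gk.2 ∈ K ∧
      Seg.sg hpinf (hBinf d.1) = gk.1 * Seg.sg hpinf (hBinf b) * gk.2 := by
    rintro ⟨d, g, hg, k, hk, h⟩
    exact ⟨(g, k), hg, hk, h⟩
  choose gk hg hk hgk using hch
  have hBd : ∀ (d : Y) (y : ℕ), B d.1 ((gk d).1 y) =
      p ((gk d).2⁻¹ ((Seg.sg hpinf (hBinf b))⁻¹ y)) := by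
    intro d y
    have h3 := Seg.sg_inv_spec hpinf (hBinf d.1) ((gk d).1 y)
    rw [hgk d] at h3
    rw [← h3]
    simp [mul_inv_rev, Equiv.Perm.mul_apply]
  have : Finite F := hF
  have : Countable (F → ℕ) := inferInstance
  rw [← Set.countable_coe_iff]
  refine Function.Injective.countable (f := fun d : Y => fun i : F => (gk d).2 i.1) ?_
  intro d d' hdd
  have hkk : (gk d).2⁻¹ * (gk d').2 ∈ st K F := by
    refine ⟨K.mul_mem (K.inv_mem (hk d)) (hk d'), fun i hi => ?_⟩
    have h4 : (gk d).2 i = (gk d').2 i := congrFun hdd ⟨i, hi⟩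
    rw [Equiv.Perm.mul_apply, ← h4]
    exact (gk d).2.symm_apply_apply i
  have hpp : ∀ z, p ((gk d).2⁻¹ z) = p ((gk d').2⁻¹ z) := by
    intro z
    have h5 := hpst _ hkk ((gk d').2⁻¹ z)
    have h6 : (gk d').2 ((gk d').2⁻¹ z) = z := (gk d').2.apply_symm_apply z
    rw [Equiv.Perm.mul_apply, h6] at h5
    exact h5
  refine Subtype.ext (hBi _ _ ⟨(gk d').1 * (gk d).1⁻¹, G.mul_mem (hg d') (G.inv_mem (hg d)),
    fun n => ?_⟩)
  have h6 : (gk d).1 ((gk d).1⁻¹ n) = n := (gk d).1.apply_symm_apply n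
  rw [Equiv.Perm.mul_apply, hBd d', ← hpp, ← hBd d, h6]

end Pool.Agent.L7h26.DU
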